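import Pool.Agent.Y120.K.Defs
import Pool.Agent.TH818.AR.Tr

/-!
K-NP (job 7352): the logarithm at `x = 0` is transcendental over the functions analytic there.
-/

set_option autoImplicit false

open Filter Topology Set

namespace Pool.Agent.Y239.K.NP

open Pool.Agent.Y120.K Pool.Agent.Y120.J

/-- the functions which are analytic at zero -/
def B0 : Subalgebra ℂ (ℝ → ℂ) where
  carrier := {c | AnalyticAt ℝ c 0}
  mul_mem' := fun ha hb => AnalyticAt.mul ha hb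
  add_mem' := fun ha hb => AnalyticAt.add ha hb
  algebraMap_mem' := fun _ => analyticAt_const

/-- evaluation -/
noncomputable def evb (x : ℝ) : B0 →+* ℂ := (Pi.evalRingHom (fun _ : ℝ => ℂ) x).comp B0.subtype

theorem evb_apply (x : ℝ) (b : B0) : evb x b = (b : ℝ → ℂ) x := rfl

theorem an_re {f : ℝ → ℂ} {x : ℝ} (hf : AnalyticAt ℝ f x) : AnalyticAt ℝ (fun x => (f x).re) x :=
  (Complex.reCLM.analyticAt _).comp hf

theorem an_im {f : ℝ → ℂ} {x : ℝ} (hf : AnalyticAt ℝ f x) : AnalyticAt ℝ (fun x => (f x).im) x :=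
  (Complex.imCLM.analyticAt _).comp hf

theorem an_ofReal {f : ℝ → ℝ} {x : ℝ} (hf : AnalyticAt ℝ f x) :
    AnalyticAt ℝ (fun x => ((f x : ℝ) : ℂ)) x :=
  (Complex.ofRealCLM.analyticAt _).comp hf

/-- the logarithm is transcendental, complex version -/
theorem tr_c (P : Polynomial B0)
    (h : ∀ᶠ x in 𝓝[>] (0 : ℝ), P.eval₂ (evb x) ((Real.log (1 / x) : ℝ) : ℂ) = 0) :
    ∀ᶠ x in 𝓝 (0 : ℝ), ∀ Λ : ℂ, P.eval₂ (evb x) Λ = 0 := by
  have key : ∀ i ≤ P.natDegree, ∀ᶠ x in 𝓝 (0 : ℝ), (P.coeff i : ℝ → ℂ) x = 0 := by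
    intro i hi
    have h1 : ∀ᶠ t in 𝓝[>] (0 : ℝ), ∑ i ∈ Finset.range (P.natDegree + 1),
        ((P.coeff i : ℝ → ℂ) t).re * (-1 * Real.log t + 0) ^ i = 0 := by
      filter_upwards [h] with x hx
      rw [Polynomial.eval₂_eq_sum_range] at hx
      have h2 := congrArg Complex.re hx
      rw [Complex.re_sum, Complex.zero_re] at h2
      refine Eq.trans (Finset.sum_congr rfl fun j _ => ?_) h2
      rw [evb_apply, ← Complex.ofReal_pow, Complex.re_mul_ofReal, one_div, Real.log_inv]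
      congr 2
      ring
    have h2 : ∀ᶠ t in 𝓝[>] (0 : ℝ), ∑ i ∈ Finset.range (P.natDegree + 1),
        ((P.coeff i : ℝ → ℂ) t).im * (-1 * Real.log t + 0) ^ i = 0 := by
      filter_upwards [h] with x hx
      rw [Polynomial.eval₂_eq_sum_range] at hx
      have h2 := congrArg Complex.im hx
      rw [Complex.im_sum, Complex.zero_im] at h2
      refine Eq.trans (Finset.sum_congr rfl fun j _ => ?_) h2
      rw [evb_apply, ← Complex.ofReal_pow, Complex.im_mul_ofReal, one_div, Real.log_inv]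
      congr 2
      ring
    have h3 := Pool.Agent.TH818.AR.tr P.natDegree (fun i t => ((P.coeff i : ℝ → ℂ) t).re) (-1)
      (fun _ => 0) (by norm_num) analyticAt_const (fun i => an_re (P.coeff i).2) h1 i hi
    have h4 := Pool.Agent.TH818.AR.tr P.natDegree (fun i t => ((P.coeff i : ℝ → ℂ) t).im) (-1)
      (fun _ => 0) (by norm_num) analyticAt_const (fun i => an_im (P.coeff i).2) h2 i hi
    filter_upwards [h3, h4] with x hx3 hx4
    exact Complex.ext hx3 hx4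
  have key2 : ∀ᶠ x in 𝓝 (0 : ℝ), ∀ i ∈ Finset.range (P.natDegree + 1), (P.coeff i : ℝ → ℂ) x = 0 := by
    rw [Filter.eventually_all_finset]
    intro i hi
    exact key i (Nat.lt_succ_iff.1 (Finset.mem_range.1 hi))
  filter_upwards [key2] with x hx Λ
  rw [Polynomial.eval₂_eq_sum_range]
  refine Finset.sum_eq_zero fun i hi => ?_
  rw [evb_apply, hx i hi, zero_mul]

variable {s : Bool} {g : ℕ}

theorem Js_nonneg (s : Bool) : 0 ≤ Js s := by
  unfold Js
  split_ifs <;> norm_num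

theorem z1_pos (hg : 1 ≤ g) : 0 < z1 s g := by
  unfold z1
  have h1 : (1 : ℝ) ≤ g := by exact_mod_cast hg
  have := Js_nonneg s
  positivity

/-- the curve with the logarithm replaced by `Λ` -/
noncomputable def vv (s : Bool) (g : ℕ) (x : ℝ) (Λ : ℂ) : Fin 4 → ℂ :=
  ![Λ, (xs s : ℂ) + (-(ut s g x 2 : ℂ) / (ut s g x 0 : ℂ) - Λ) / tpi,
    -tpi * Jx s g x * (ut s g x 0 : ℂ) ^ 2,
    tpi ^ 2 * Jx s g x * ((ut s g x 0 : ℂ) ^ 4 - 2 * (ut s g x 0 : ℂ) ^ 3 * (ut s g x 1 : ℂ))]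

theorem tpi_ne : tpi ≠ 0 := by
  unfold tpi
  simp [Real.pi_ne_zero, Complex.I_ne_zero]

theorem cur_eq (hu : T_U s) (hg : 1 ≤ g) {x : ℝ} (hx : x ∈ Ioo 0 (z1 s g)) :
    cur s g x = vv s g x ((Real.log (1 / x) : ℝ) : ℂ) := by
  obtain ⟨h0, -, h2, h3, h4, -⟩ := (hu g hg).2.2 x hx
  have hu0 : (ut s g x 0 : ℂ) ≠ 0 := by exact_mod_cast h0.ne'
  have ht := tpi_ne
  have hc0 : cur s g x 0 = ((Real.log (1 / x) : ℝ) : ℂ) := rfl
  funext i
  fin_cases i
  · rfl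
  · change cur s g x 1 = (xs s : ℂ) + (-(ut s g x 2 : ℂ) / (ut s g x 0 : ℂ) -
      ((Real.log (1 / x) : ℝ) : ℂ)) / tpi
    rw [h4, hc0]
    field_simp
    ring
  · exact h2
  · exact h3

/-- evaluation of the polynomials on the modified curve -/
theorem rep (hu : T_U s) (hg : 1 ≤ g) (Q : MvPolynomial (Fin 4) (An s g)) :
    ∃ (K : ℕ) (P : Polynomial B0), ∀ x ∈ Ioo 0 (z1 s g), ∀ Λ : ℂ,
      ((x : ℂ) * (ut s g x 0 : ℂ)) ^ K *
        MvPolynomial.eval₂ (ea s g x : An s g →+* ℂ) (vv s g x Λ) Q = P.eval₂ (evb x) Λ := by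
  have hz1 := z1_pos (s := s) hg
  have hut : ∀ i, AnalyticAt ℝ (fun x => ut s g x i) 0 := (hu g hg).1 0 ⟨le_rfl, hz1⟩
  have bx : (fun x : ℝ => (x : ℂ)) ∈ B0 := an_ofReal analyticAt_id
  have bu : ∀ i, (fun x : ℝ => ((ut s g x i : ℝ) : ℂ)) ∈ B0 := fun i => an_ofReal (hut i)
  have bc : ∀ c : ℂ, (fun _ : ℝ => c) ∈ B0 := fun c => analyticAt_const
  set fx : B0 := ⟨_, bx⟩ with hfx
  set fu : Fin 4 → B0 := fun i => ⟨_, bu i⟩ with hfu
  set fc : ℂ → B0 := fun c => ⟨_, bc c⟩ with hfc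
  have efx : ∀ x, evb x fx = (x : ℂ) := fun x => rfl
  have efu : ∀ x i, evb x (fu i) = (ut s g x i : ℂ) := fun x i => rfl
  have efc : ∀ x c, evb x (fc c) = c := fun x c => rfl
  induction Q using MvPolynomial.induction_on with
  | C a =>
    have ba : (a : ℝ → ℂ) ∈ B0 := a.2 0 ⟨le_rfl, hz1.le⟩
    refine ⟨0, Polynomial.C ⟨_, ba⟩, fun x hx Λ => ?_⟩
    rw [pow_zero, one_mul, MvPolynomial.eval₂_C, Polynomial.eval₂_C]
    rfl
  | add Q1 Q2 ih1 ih2 =>
    obtain ⟨K1, P1, h1⟩ := ih1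
    obtain ⟨K2, P2, h2⟩ := ih2
    refine ⟨K1 + K2, Polynomial.C (fx * fu 0) ^ K2 * P1 + Polynomial.C (fx * fu 0) ^ K1 * P2,
      fun x hx Λ => ?_⟩
    rw [MvPolynomial.eval₂_add, Polynomial.eval₂_add, Polynomial.eval₂_mul, Polynomial.eval₂_mul,
      Polynomial.eval₂_pow, Polynomial.eval₂_pow, Polynomial.eval₂_C, map_mul, efx, efu,
      ← h1 x hx Λ, ← h2 x hx Λ]
    ring
  | mul_X Q i ih =>
    obtain ⟨K, P, h⟩ := ih
    have hY : ∃ Y : Polynomial B0, ∀ x ∈ Ioo 0 (z1 s g), ∀ Λ : ℂ,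
        (x : ℂ) * (ut s g x 0 : ℂ) * vv s g x Λ i = Y.eval₂ (evb x) Λ := by
      have hx0 : ∀ x ∈ Ioo 0 (z1 s g), (x : ℂ) ≠ 0 := fun x hx => by exact_mod_cast hx.1.ne'
      have hu0 : ∀ x ∈ Ioo 0 (z1 s g), (ut s g x 0 : ℂ) ≠ 0 := fun x hx => by
        exact_mod_cast ((hu g hg).2.2 x hx).1.ne'
      have hxJ : ∀ x ∈ Ioo 0 (z1 s g), (x : ℂ) * Jx s g x = ((si s : ℤ) : ℂ) * (1 - g * (x : ℂ)) := by
        intro x hx
        have := hx0 x hx
        unfold Jx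
        push_cast
        field_simp
      have ht := tpi_ne
      fin_cases i
      · refine ⟨Polynomial.C (fx * fu 0) * Polynomial.X, fun x hx Λ => ?_⟩
        rw [Polynomial.eval₂_mul, Polynomial.eval₂_C, Polynomial.eval₂_X, map_mul, efx, efu]
        rfl
      · refine ⟨Polynomial.C (fx * fu 0 * fc (xs s : ℂ) - fx * fu 2 * fc (1 / tpi)) -
          Polynomial.C (fx * fu 0 * fc (1 / tpi)) * Polynomial.X, fun x hx Λ => ?_⟩
        rw [Polynomial.eval₂_sub, Polynomial.eval₂_mul, Polynomial.eval₂_C, Polynomial.eval₂_C,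
          Polynomial.eval₂_X]
        simp only [map_sub, map_mul, efx, efu, efc]
        change (x : ℂ) * (ut s g x 0 : ℂ) * ((xs s : ℂ) +
          (-(ut s g x 2 : ℂ) / (ut s g x 0 : ℂ) - Λ) / tpi) = _
        have := hu0 x hx
        field_simp
        ring
      · refine ⟨Polynomial.C (fc (-tpi * ((si s : ℤ) : ℂ)) * (1 - fc (g : ℂ) * fx) * fu 0 ^ 3),
          fun x hx Λ => ?_⟩
        rw [Polynomial.eval₂_C, map_mul, map_mul, map_sub, map_mul, map_pow, map_one, efx, efu,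
          efc, efc]
        change (x : ℂ) * (ut s g x 0 : ℂ) * (-tpi * Jx s g x * (ut s g x 0 : ℂ) ^ 2) = _
        linear_combination (-tpi * (ut s g x 0 : ℂ) ^ 3) * hxJ x hx
      · refine ⟨Polynomial.C (fc (tpi ^ 2 * ((si s : ℤ) : ℂ)) * (1 - fc (g : ℂ) * fx) *
          (fu 0 * (fu 0 ^ 4 - fc 2 * fu 0 ^ 3 * fu 1))), fun x hx Λ => ?_⟩
        rw [Polynomial.eval₂_C, map_mul, map_mul, map_mul, map_sub, map_sub, map_mul, map_mul,
          map_mul, map_pow, map_pow, map_one, efx, efu, efu, efc, efc, efc]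
        change (x : ℂ) * (ut s g x 0 : ℂ) * (tpi ^ 2 * Jx s g x * ((ut s g x 0 : ℂ) ^ 4 -
          2 * (ut s g x 0 : ℂ) ^ 3 * (ut s g x 1 : ℂ))) = _
        linear_combination (tpi ^ 2 * (ut s g x 0 : ℂ) * ((ut s g x 0 : ℂ) ^ 4 -
          2 * (ut s g x 0 : ℂ) ^ 3 * (ut s g x 1 : ℂ))) * hxJ x hx
    obtain ⟨Y, hY⟩ := hY
    refine ⟨K + 1, P * Y, fun x hx Λ => ?_⟩
    rw [MvPolynomial.eval₂_mul, MvPolynomial.eval₂_X, Polynomial.eval₂_mul, ← h x hx Λ,
      ← hY x hx Λ]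
    ring

/-- analyticity of the values on an analytic curve -/
theorem an_eval {w : ℝ → Fin 4 → ℂ} {x : ℝ} (hx : x ∈ Icc 0 (z1 s g))
    (hw : ∀ i, AnalyticAt ℝ (fun x => w x i) x) (Q : MvPolynomial (Fin 4) (An s g)) :
    AnalyticAt ℝ (fun x => MvPolynomial.eval₂ (ea s g x : An s g →+* ℂ) (w x) Q) x := by
  induction Q using MvPolynomial.induction_on with
  | C a =>
    simp only [MvPolynomial.eval₂_C]
    exact a.2 x hx
  | add Q1 Q2 ih1 ih2 =>
    simp only [MvPolynomial.eval₂_add]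
    exact ih1.add ih2
  | mul_X Q i ih =>
    simp only [MvPolynomial.eval₂_mul, MvPolynomial.eval₂_X]
    exact ih.mul (hw i)

/-- the curve is analytic -/
theorem an_cur (hu : T_U s) (hg : 1 ≤ g) {x : ℝ} (hx : x ∈ Ioo 0 (z1 s g)) (i : Fin 4) :
    AnalyticAt ℝ (fun x => cur s g x i) x := by
  have hut : ∀ i, AnalyticAt ℝ (fun x => ut s g x i) x := (hu g hg).1 x ⟨hx.1.le, hx.2⟩
  have hutc : ∀ i, AnalyticAt ℝ (fun x => ((ut s g x i : ℝ) : ℂ)) x := fun i => an_ofReal (hut i)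
  have hL : AnalyticAt ℝ (fun x : ℝ => ((Real.log (1 / x) : ℝ) : ℂ)) x := by
    apply an_ofReal
    apply AnalyticAt.log
    · exact analyticAt_const.div analyticAt_id hx.1.ne'
    · exact one_div_pos.2 hx.1
  have hJ : AnalyticAt ℝ (fun x : ℝ => Jx s g x) x := by
    unfold Jx
    apply analyticAt_const.mul
    apply an_ofReal
    exact (analyticAt_const.div analyticAt_id hx.1.ne').sub analyticAt_const
  have hu0 : (ut s g x 0 : ℂ) ≠ 0 := by exact_mod_cast ((hu g hg).2.2 x hx).1.ne'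
  have hv : AnalyticAt ℝ (fun x => vv s g x ((Real.log (1 / x) : ℝ) : ℂ) i) x := by
    fin_cases i
    · exact hL
    · exact analyticAt_const.add ((((hutc 2).neg.div (hutc 0) hu0).sub hL).div analyticAt_const tpi_ne)
    · exact (analyticAt_const.mul hJ).mul ((hutc 0).pow 2)
    · exact (analyticAt_const.mul hJ).mul (((hutc 0).pow 4).sub
        ((analyticAt_const.mul ((hutc 0).pow 3)).mul (hutc 1)))
  refine hv.congr ?_
  have : Ioo 0 (z1 s g) ∈ 𝓝 x := Ioo_mem_nhds hx.1 hx.2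
  filter_upwards [this] with y hy
  rw [cur_eq hu hg hy]

/-- K-NP -/
theorem t_np (s : Bool) (hu : T_U s) : T_NP s := by
  intro g hg Q hQ x hx c
  obtain ⟨K, P, hP⟩ := rep hu hg Q
  have hz1 := z1_pos (s := s) hg
  have hnear : Ioo 0 (z1 s g) ∈ 𝓝[>] (0 : ℝ) := Ioo_mem_nhdsGT hz1
  have h1 : ∀ᶠ x in 𝓝[>] (0 : ℝ), P.eval₂ (evb x) ((Real.log (1 / x) : ℝ) : ℂ) = 0 := by
    filter_upwards [hnear] with y hy
    rw [← hP y hy, ← cur_eq hu hg hy, hQ y hy, mul_zero]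
  have h2 := (tr_c P h1).filter_mono (nhdsWithin_le_nhds (s := Ioi (0 : ℝ)))
  have h3 : ∀ᶠ y in 𝓝[>] (0 : ℝ),
      MvPolynomial.eval₂ (ea s g y : An s g →+* ℂ) (nt c (cur s g y)) Q = 0 := by
    filter_upwards [hnear, h2] with y hy hy2
    have h4 := hP y hy (((Real.log (1 / y) : ℝ) : ℂ) - tpi * c)
    rw [hy2] at h4
    have hy0 : (y : ℂ) ≠ 0 := by exact_mod_cast hy.1.ne'
    have hu0 : (ut s g y 0 : ℂ) ≠ 0 := by exact_mod_cast ((hu g hg).2.2 y hy).1.ne'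
    have h5 := (mul_eq_zero.1 h4).resolve_left (pow_ne_zero _ (mul_ne_zero hy0 hu0))
    have h6 : nt c (cur s g y) = vv s g y (((Real.log (1 / y) : ℝ) : ℂ) - tpi * c) := by
      rw [cur_eq hu hg hy]
      have ht := tpi_ne
      funext i
      fin_cases i
      · rfl
      · change (xs s : ℂ) + (-(ut s g y 2 : ℂ) / (ut s g y 0 : ℂ) -
          ((Real.log (1 / y) : ℝ) : ℂ)) / tpi + c = (xs s : ℂ) + (-(ut s g y 2 : ℂ) /
          (ut s g y 0 : ℂ) - (((Real.log (1 / y) : ℝ) : ℂ) - tpi * c)) / tpi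
        field_simp
        ring
      · rfl
      · rfl
    rw [h6, h5]
  -- the identity theorem
  have han : AnalyticOnNhd ℝ (fun y => MvPolynomial.eval₂ (ea s g y : An s g →+* ℂ)
      (nt c (cur s g y)) Q) (Ioo 0 (z1 s g)) := by
    intro y hy
    refine an_eval (Ioo_subset_Icc_self hy) (fun i => ?_) Q
    fin_cases i
    · exact (an_cur hu hg hy 0).sub analyticAt_const
    · exact (an_cur hu hg hy 1).add analyticAt_const
    · exact an_cur hu hg hy 2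
    · exact an_cur hu hg hy 3
  obtain ⟨ε, hε, hεf⟩ := (mem_nhdsGT_iff_exists_Ioo_subset).1 h3
  have hε0 : 0 < ε := hε
  set m := min ε (z1 s g) / 2 with hm
  have hmin : 0 < min ε (z1 s g) := lt_min hε0 hz1
  have hm0 : 0 < m := by rw [hm]; linarith
  have hm1 : m < min ε (z1 s g) := by rw [hm]; linarith
  have h7 : (fun y => MvPolynomial.eval₂ (ea s g y : An s g →+* ℂ) (nt c (cur s g y)) Q)
      =ᶠ[𝓝 m] 0 := by
    have : Ioo 0 ε ∈ 𝓝 m := Ioo_mem_nhds hm0 (lt_of_lt_of_le hm1 (min_le_left _ _))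
    filter_upwards [this] with y hy
    exact hεf hy
  exact han.eqOn_zero_of_preconnected_of_eventuallyEq_zero isPreconnected_Ioo
    ⟨hm0, lt_of_lt_of_le hm1 (min_le_right _ _)⟩ h7 hx

end Pool.Agent.Y239.K.NP
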