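import Pool.Agent.Y120.K.Defs
import Pool.Agent.Y120.H.Cx
import Pool.Agent.Y37.GF.Stab

/-!
K-U (job 7354): the four functions on the interval.
-/

set_option autoImplicit false

open Filter Topology Set PowerSeries

namespace Pool.Agent.Y239.K.UU

open Pool.Agent.Y120.K Pool.Agent.Y120.J Pool.Agent.Y113
open Pool.Agent.Y120.GH (sf cx_sf_cv ou_shift ou_ev)
open Pool.Agent.TH21.MS (jj jj_an)
open Pool.Agent.Y37.GF (E SR)

/-! ### general facts -/

theorem an_re {f : ℝ → ℂ} {x : ℝ} (hf : AnalyticAt ℝ f x) : AnalyticAt ℝ (fun x => (f x).re) x :=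
  (Complex.reCLM.analyticAt _).comp hf

theorem an_ofReal {f : ℝ → ℝ} {x : ℝ} (hf : AnalyticAt ℝ f x) :
    AnalyticAt ℝ (fun x => ((f x : ℝ) : ℂ)) x :=
  (Complex.ofRealCLM.analyticAt _).comp hf

theorem an_sqrt {f : ℝ → ℝ} {x : ℝ} (hf : AnalyticAt ℝ f x) (h0 : 0 < f x) :
    AnalyticAt ℝ (fun x => √ (f x)) x := by
  have h1 : AnalyticAt ℝ (fun y : ℝ => √ y) (f x) :=
    (Real.contDiffAt_sqrt (n := ⊤) h0.ne').analyticAt
  exact h1.comp hf

theorem tpi_ne : tpi ≠ 0 := by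
  unfold tpi
  simp [Real.pi_ne_zero, Complex.I_ne_zero]

variable (s : Bool)

theorem Js_nonneg : 0 ≤ Js s := by
  unfold Js
  split_ifs <;> norm_num

theorem Ys_pos : 0 < Ys s := by
  unfold Ys
  split_ifs <;> positivity

theorem ry_im (y : ℝ) : (ry s y).im = y := by
  unfold ry
  simp

theorem si_sq : (((si s : ℤ) : ℝ)) * ((si s : ℤ) : ℝ) = 1 := by
  unfold si
  split_ifs <;> norm_num

theorem si_sqC : (((si s : ℤ) : ℂ)) * ((si s : ℤ) : ℂ) = 1 := by
  unfold si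
  split_ifs <;> norm_num

theorem si_ne : ((si s : ℤ) : ℂ) ≠ 0 := left_ne_zero_of_mul_eq_one (si_sqC s)

/-! ### derivatives on the half-line -/

theorem curve_deriv (F : ℂ → ℂ) (y : ℝ) (hF : AnalyticAt ℂ F (ry s y)) :
    HasDerivAt (fun t : ℝ => F (ry s t)) (deriv F (ry s y) * Complex.I) y := by
  have h1 : HasDerivAt F (deriv F (ry s y)) ((xs s : ℂ) + (y : ℂ) * Complex.I) :=
    hF.differentiableAt.hasDerivAt
  have h2 : HasDerivAt (fun w : ℂ => (xs s : ℂ) + w * Complex.I) Complex.I (y : ℂ) := by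
    have := ((hasDerivAt_id (y : ℂ)).mul_const Complex.I).const_add (xs s : ℂ)
    simpa using this
  have h3 : HasDerivAt (fun w : ℂ => F ((xs s : ℂ) + w * Complex.I))
      (deriv F (ry s y) * Complex.I) (y : ℂ) := h1.comp (y : ℂ) h2
  exact h3.comp_ofReal

/-- the first derivative -/
noncomputable def hd1 (y : ℝ) : ℝ := ((si s : ℤ) : ℝ) * (deriv jj (ry s y) * Complex.I).re

/-- the second derivative -/
noncomputable def hd2 (y : ℝ) : ℝ :=
  ((si s : ℤ) : ℝ) * (deriv (deriv jj) (ry s y) * Complex.I * Complex.I).re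

theorem jj_anr {y : ℝ} (hy : 0 < y) : AnalyticAt ℂ jj (ry s y) :=
  jj_an _ (by rw [ry_im]; exact hy)

theorem hh_deriv {y : ℝ} (hy : 0 < y) : HasDerivAt (hh s) (hd1 s y) y := by
  have h1 := curve_deriv s jj y (jj_anr s hy)
  have h2 : HasDerivAt (fun t : ℝ => Complex.reCLM (jj (ry s t)))
      (Complex.reCLM (deriv jj (ry s y) * Complex.I)) y :=
    Complex.reCLM.hasFDerivAt.comp_hasDerivAt y h1
  exact h2.const_mul _

theorem hd1_deriv {y : ℝ} (hy : 0 < y) : HasDerivAt (hd1 s) (hd2 s y) y := by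
  have h1 := (curve_deriv s (deriv jj) y (jj_anr s hy).deriv).mul_const Complex.I
  have h2 : HasDerivAt (fun t : ℝ => Complex.reCLM (deriv jj (ry s t) * Complex.I))
      (Complex.reCLM (deriv (deriv jj) (ry s y) * Complex.I * Complex.I)) y :=
    Complex.reCLM.hasFDerivAt.comp_hasDerivAt y h1
  exact h2.const_mul _

variable {s}

theorem d1 (hr : T_RAY s) {y : ℝ} (hy : Ys s < y) :
    deriv jj (ry s y) = -Complex.I * (((si s : ℤ) : ℂ) * ((hd1 s y : ℝ) : ℂ)) := by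
  have hy0 : 0 < y := (Ys_pos s).trans hy
  have h1 := curve_deriv s jj y (jj_anr s hy0)
  have h2 : HasDerivAt (fun t : ℝ => ((si s : ℤ) : ℂ) * ((hh s t : ℝ) : ℂ))
      (((si s : ℤ) : ℂ) * ((hd1 s y : ℝ) : ℂ)) y := ((hh_deriv s hy0).ofReal_comp).const_mul _
  have h3 : (fun t : ℝ => jj (ry s t)) =ᶠ[𝓝 y] fun t : ℝ => ((si s : ℤ) : ℂ) * ((hh s t : ℝ) : ℂ) := by
    filter_upwards [eventually_gt_nhds hy] with t ht
    exact hr.1 t ht.le
  have h4 := (h1.congr_of_eventuallyEq h3.symm).unique h2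
  linear_combination (-Complex.I) * h4 + deriv jj (ry s y) * Complex.I_sq

theorem d2 (hr : T_RAY s) {y : ℝ} (hy : Ys s < y) :
    deriv (deriv jj) (ry s y) = -(((si s : ℤ) : ℂ) * ((hd2 s y : ℝ) : ℂ)) := by
  have hy0 : 0 < y := (Ys_pos s).trans hy
  have h1 := curve_deriv s (deriv jj) y (jj_anr s hy0).deriv
  have h2 : HasDerivAt (fun t : ℝ => -Complex.I * (((si s : ℤ) : ℂ) * ((hd1 s t : ℝ) : ℂ)))
      (-Complex.I * (((si s : ℤ) : ℂ) * ((hd2 s y : ℝ) : ℂ))) y :=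
    (((hd1_deriv s hy0).ofReal_comp).const_mul _).const_mul _
  have h3 : (fun t : ℝ => deriv jj (ry s t)) =ᶠ[𝓝 y]
      fun t : ℝ => -Complex.I * (((si s : ℤ) : ℂ) * ((hd1 s t : ℝ) : ℂ)) := by
    filter_upwards [eventually_gt_nhds hy] with t ht
    exact d1 hr ht
  have h4 := (h1.congr_of_eventuallyEq h3.symm).unique h2
  linear_combination (-Complex.I) * h4 + (deriv (deriv jj) (ry s y) +
    (((si s : ℤ) : ℂ) * ((hd2 s y : ℝ) : ℂ))) * Complex.I_sq

theorem hd1_pos (hr : T_RAY s) {y : ℝ} (hy : Ys s < y) : 0 < hd1 s y := by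
  have hy0 : 0 < y := (Ys_pos s).trans hy
  have h1 : MonotoneOn (hh s) (Ioi (Ys s)) := hr.2.2.1.monotoneOn.mono Ioi_subset_Ici_self
  have h2 : 0 ≤ derivWithin (hh s) (Ioi (Ys s)) y := h1.derivWithin_nonneg
  rw [derivWithin_of_isOpen isOpen_Ioi hy, (hh_deriv s hy0).deriv] at h2
  refine lt_of_le_of_ne h2 fun h0 => ?_
  apply hr.2.2.2.1 y hy
  rw [d1 hr hy, ← h0]
  simp

/-! ### the values on the interval -/

variable {g : ℕ} {x : ℝ}

theorem inv_gt (hg : 1 ≤ g) (hx : x ∈ Ioo 0 (z1 s g)) : Js s < 1 / x - g := by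
  have h1 : (1 : ℝ) ≤ g := by exact_mod_cast hg
  have h2 := Js_nonneg s
  have h3 : x < 1 / ((g : ℝ) + Js s) := hx.2
  rw [lt_div_iff₀ (by positivity)] at h3
  have h4 : (g : ℝ) + Js s < 1 / x := by
    rw [lt_div_iff₀ hx.1, mul_comm]
    exact h3
  linarith

theorem vals (hr : T_RAY s) (hc : T_CUR s) (hg : 1 ≤ g) (hx : x ∈ Ioo 0 (z1 s g)) :
    Jx s g x ≠ 0 ∧
    -(cur s g x 2 / (tpi * Jx s g x)) =
      ((hd1 s (Yx s g x) / (2 * Real.pi * (1 / x - g)) : ℝ) : ℂ) ∧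
    0 < hd1 s (Yx s g x) / (2 * Real.pi * (1 / x - g)) ∧
    cur s g x 3 / (tpi ^ 2 * Jx s g x) =
      ((hd2 s (Yx s g x) / (4 * Real.pi ^ 2 * (1 / x - g)) : ℝ) : ℂ) := by
  obtain ⟨h1, h2, -⟩ := (hc g hg).1 x hx
  have h3 : 0 < 1 / x - g := (Js_nonneg s).trans_lt (inv_gt hg hx)
  have h3c : ((1 / x - g : ℝ) : ℂ) ≠ 0 := by exact_mod_cast h3.ne'
  have hsi := si_ne s
  have hpi : (Real.pi : ℂ) ≠ 0 := by exact_mod_cast Real.pi_ne_zero
  have hI := Complex.I_ne_zero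
  have hc2 : cur s g x 2 = deriv jj (ry s (Yx s g x)) := rfl
  have hc3 : cur s g x 3 = deriv (deriv jj) (ry s (Yx s g x)) := rfl
  refine ⟨mul_ne_zero hsi h3c, ?_, ?_, ?_⟩
  · rw [hc2, d1 hr h1]
    unfold Jx tpi
    generalize (1 / x - g : ℝ) = w at h3 h3c
    push_cast
    field_simp
  · have := hd1_pos hr h1
    have := Real.pi_pos
    positivity
  · rw [hc3, d2 hr h1]
    unfold Jx tpi
    generalize (1 / x - g : ℝ) = w at h3 h3c
    push_cast
    field_simp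
    rw [Complex.I_sq]
    ring

theorem Fv_sq (hr : T_RAY s) (hc : T_CUR s) (hg : 1 ≤ g) (hx : x ∈ Ioo 0 (z1 s g)) :
    0 < Fv s g x ∧ ((Fv s g x : ℝ) : ℂ) ^ 2 = -(cur s g x 2 / (tpi * Jx s g x)) := by
  obtain ⟨-, h2, h3, -⟩ := vals hr hc hg hx
  have h4 : (-(cur s g x 2) / (tpi * Jx s g x)).re =
      hd1 s (Yx s g x) / (2 * Real.pi * (1 / x - g)) := by
    rw [neg_div, h2, Complex.ofReal_re]
  have h5 : Fv s g x = √ (hd1 s (Yx s g x) / (2 * Real.pi * (1 / x - g))) := by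
    unfold Fv
    rw [h4]
  refine ⟨by rw [h5]; exact Real.sqrt_pos.2 h3, ?_⟩
  rw [h2, h5, ← Complex.ofReal_pow, Real.sq_sqrt h3.le]

/-! ### analyticity -/

theorem an_ry (y : ℝ) : AnalyticAt ℝ (ry s) y := by
  unfold ry
  exact analyticAt_const.add ((an_ofReal analyticAt_id).mul analyticAt_const)

theorem an_comp (hc : T_CUR s) (hg : 1 ≤ g) (hx : x ∈ Ioo 0 (z1 s g)) {F : ℂ → ℂ}
    (hF : AnalyticAt ℂ F (ry s (Yx s g x))) : AnalyticAt ℝ (fun x => F (ry s (Yx s g x))) x := by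
  obtain ⟨-, -, h3⟩ := (hc g hg).1 x hx
  have h4 : AnalyticAt ℝ (fun x => ry s (Yx s g x)) x := (an_ry (Yx s g x)).comp h3
  exact AnalyticAt.fun_comp (g := F) (f := fun x => ry s (Yx s g x))
    (hF.restrictScalars (𝕜 := ℝ)) h4

theorem an_uu (hr : T_RAY s) (hc : T_CUR s) (hg : 1 ≤ g) (hx : x ∈ Ioo 0 (z1 s g)) (i : Fin 4) :
    AnalyticAt ℝ (fun x => uu s g x i) x := by
  obtain ⟨h1, h2, h3⟩ := (hc g hg).1 x hx
  have hy0 : 0 < Yx s g x := (Ys_pos s).trans h1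
  obtain ⟨v1, v2, v3, v4⟩ := vals hr hc hg hx
  have hx0 := hx.1.ne'
  have hJ : AnalyticAt ℝ (fun x : ℝ => Jx s g x) x := by
    unfold Jx
    apply analyticAt_const.mul
    apply an_ofReal
    exact (analyticAt_const.div analyticAt_id hx0).sub analyticAt_const
  have hc2 : AnalyticAt ℝ (fun x => cur s g x 2) x := an_comp hc hg hx (jj_anr s hy0).deriv
  have hc3 : AnalyticAt ℝ (fun x => cur s g x 3) x := an_comp hc hg hx (jj_anr s hy0).deriv.deriv
  have ht := tpi_ne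
  have hF : AnalyticAt ℝ (fun x => Fv s g x) x := by
    unfold Fv
    apply an_sqrt
    · exact an_re (hc2.neg.div (analyticAt_const.mul hJ) (mul_ne_zero ht v1))
    · rw [neg_div, v2, Complex.ofReal_re]
      exact v3
  have hF0 : Fv s g x ≠ 0 := (Fv_sq hr hc hg hx).1.ne'
  have hF1 : AnalyticAt ℝ (fun x => F1v s g x) x := by
    unfold F1v
    refine ((hF.pow 4).sub (an_re (hc3.div (analyticAt_const.mul hJ)
      (mul_ne_zero (pow_ne_zero _ ht) v1)))).div (analyticAt_const.mul (hF.pow 3)) ?_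
    have : (2 : ℝ) * Fv s g x ^ 3 ≠ 0 := by positivity
    exact this
  have hG : AnalyticAt ℝ (fun x => Gv s g x) x := by
    unfold Gv
    refine (AnalyticAt.sub ?_ (analyticAt_const.mul h3)).mul hF
    apply AnalyticAt.log
    · exact analyticAt_const.div analyticAt_id hx0
    · exact one_div_pos.2 hx.1
  fin_cases i
  · exact hF
  · exact hF1
  · exact hG.neg
  · exact ((analyticAt_const.add (hF1.mul hG)).div hF hF0).neg

/-! ### power series -/

theorem E_neg (f : ℚ⟦X⟧) (z : ℝ) : E (-f) z = -E f z := by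
  unfold E
  rw [← tsum_neg]
  refine tsum_congr fun m => ?_
  rw [map_neg]
  push_cast
  ring

theorem SR_neg {r : ℝ} {f : ℚ⟦X⟧} (h : SR r f) : SR r (-f) := by
  refine h.congr fun m => ?_
  rw [map_neg]
  push_cast
  rw [abs_neg]

theorem E_zero_arg (f : ℚ⟦X⟧) : E f 0 = ((coeff 0 f : ℚ) : ℝ) := by
  unfold E
  rw [tsum_eq_single 0]
  · simp
  · intro m hm
    rw [zero_pow hm, mul_zero]

theorem SR_of_Cv {t : ℝ} {f : ℚ⟦X⟧} (h : Cv t f) : SR (1 / t) f := h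

/-- common bound for the four series -/
theorem bound (hsd : T_SD) (s : Bool) : ∃ C : ℝ, 1 ≤ C ∧ ∀ j m,
    |((coeff m (hS s j) : ℚ) : ℝ)| ≤ C ^ (m + 1) := by
  obtain ⟨hF, hG⟩ := hsd
  have hF1 : SDc F1 := SDc.X.mul hF.deriv
  have hG1 : SDc G1 := (SDc.X.mul hG.deriv).add hF
  have key : ∀ j : Fin 4, ∃ n : ℕ, ∀ m, |((coeff m (hJ j) : ℚ) : ℝ)| ≤ ((2 : ℝ) ^ n) ^ (m + 1) := by
    intro j
    fin_cases j
    · obtain ⟨n, hn⟩ := hF
      exact ⟨n, hn.1⟩
    · obtain ⟨n, hn⟩ := hG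
      exact ⟨n, hn.1⟩
    · obtain ⟨n, hn⟩ := hF1
      exact ⟨n, hn.1⟩
    · obtain ⟨n, hn⟩ := hG1
      exact ⟨n, hn.1⟩
  choose n hn using key
  refine ⟨(2 : ℝ) ^ (∑ j, n j), one_le_pow₀ (by norm_num), fun j m => ?_⟩
  have h1 : |((coeff m (hS s j) : ℚ) : ℝ)| = |((coeff m (hJ j) : ℚ) : ℝ)| := by
    unfold hS
    split_ifs
    · rfl
    · rw [coeff_rescale]
      push_cast
      rw [abs_mul, abs_pow, abs_neg, abs_one, one_pow, one_mul]
  rw [h1]
  refine (hn j m).trans (pow_le_pow_left₀ (by positivity) ?_ _)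
  exact pow_le_pow_right₀ (by norm_num) (Finset.single_le_sum (fun _ _ => Nat.zero_le _)
    (Finset.mem_univ j))

theorem rel (ho : T_ODE) (s : Bool) : hS s 0 * hS s 3 - hS s 2 * hS s 1 = 1 := by
  have h := ho.2.2
  have e0 : hJ 0 = FF := rfl
  have e1 : hJ 1 = GG := rfl
  have e2 : hJ 2 = F1 := rfl
  have e3 : hJ 3 = G1 := rfl
  unfold hS
  split_ifs
  · rw [e0, e1, e2, e3]
    exact h
  · rw [e0, e1, e2, e3, ← map_mul, ← map_mul, ← map_sub, h, map_one]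

theorem coeff0 (s : Bool) : coeff 0 (hS s 0) = 1 := by
  have h1 : coeff 0 FF = 1 := by
    unfold FF
    rw [coeff_zero_eq_constantCoeff_apply, map_mul, ← coeff_zero_eq_constantCoeff_apply,
      ← coeff_zero_eq_constantCoeff_apply, coeff_mk, coeff_mk]
    simp [fu, fa]
  have e0 : hJ 0 = FF := rfl
  unfold hS
  split_ifs
  · rw [e0, h1]
  · rw [coeff_rescale, pow_zero, one_mul, e0, h1]

/-- complex values -/
theorem evc_eq (s : Bool) (j : Fin 4) (x : ℝ) :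
    evc (hJ j) (((si s : ℤ) : ℂ) * (x : ℂ)) = ((E (hS s j) x : ℝ) : ℂ) := by
  unfold evc E
  rw [Complex.ofReal_tsum]
  refine tsum_congr fun m => ?_
  unfold hS si
  split_ifs
  · push_cast
    rw [one_mul]
  · rw [coeff_rescale]
    push_cast
    rw [mul_pow]
    ring

theorem exp_xs (s : Bool) : Complex.exp (tpi * (xs s : ℂ)) = ((si s : ℤ) : ℂ) := by
  unfold tpi xs si
  split_ifs
  · simp
  · have : 2 * (Real.pi : ℂ) * Complex.I * ((1 / 2 : ℝ) : ℂ) = Real.pi * Complex.I := by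
      push_cast
      ring
    rw [this, Complex.exp_pi_mul_I]
    norm_num

end Pool.Agent.Y239.K.UU
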